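import Pool.Agent.Run7.h985.TC.Stm3
import Pool.Agent.Run7.h985.TC.DES
import Pool.Agent.Run7.h642.TC.IMG

/-!
# Piece CLG of project TC (helper985, page MP_6d0ce9_ag): the closure of a good class is good
-/

set_option autoImplicit false
set_option linter.all false
set_option backward.isDefEq.respectTransparency false
set_option backward.defeqAttrib.useBackward true

open CategoryTheory Limits MonoidalCategory Pretriangulated Triangulated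

namespace Run7.h237.TC

open Pool.Agent.Y116.MT Pool.Agent.V1178.MT Run7.h822.MT Run7.h985.TC Pool.Agent.Run7.h642.TC
open Functor.LaxMonoidal

universe v u w

section

variable {C : Type u} [Category.{v} C] [Preadditive C] [HasZeroObject C] [HasShift C ℤ]
  [∀ n : ℤ, (shiftFunctor C n).Additive] [Pretriangulated C] [MonoidalCategory C]
  [SymmetricCategory C] [TensorTriangulated C] [MonoidalPreadditive C]

variable {E : Type w} [Field E] {R : Realisation C E}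

/-- The class of objects without negative maps to `M`, also after tensoring with `U`. -/
def LU (U : ObjectProperty C) (M Y : C) : Prop := ∀ W : C, U W → Zm M 1 (W ⊗ Y)

variable {U : ObjectProperty C} {M Y W F P I : C}

lemma LU.iso {Y Y' : C} (e : Y ≅ Y') (hY : LU U M Y) : LU U M Y' := fun W hW =>
  (hY W hW).iso (whiskerLeftIso W e)

lemma LU.tensor (hR : FthU R U) (hY : LU U M Y) (hW : U W) : LU U M (W ⊗ Y) := by
  intro W' hW'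
  exact (hY (W' ⊗ W) (hR.tensor hW' hW)).iso (α_ W' W Y)

lemma LU.tensor' (hR : FthU R U) (hY : LU U M Y) (hW : U W) : LU U M (Y ⊗ W) :=
  (hY.tensor hR hW).iso (β_ W Y)

lemma LU.third {A B D : C} {f : A ⟶ B} {g : B ⟶ D} {h : D ⟶ A⟦(1 : ℤ)⟧}
    (hT : Triangle.mk f g h ∈ distTriang C) (hA : LU U M A) (hB : LU U M B) : LU U M D :=
  fun W hW => Zm.third (tensor_dist W hT) ((hA W hW).mono (by omega)) (hB W hW)

lemma zero_of_neg (hR : FthU R U) (hM : U M) (hY : U Y) {n k : ℤ} (h : 0 < n + k)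
    (g : Y⟦n⟧ ⟶ M⟦-k⟧) : g = 0 := by
  let e : (M⟦-k⟧)⟦k⟧ ≅ M := (shiftFunctorCompIsoId C (-k) k (by omega)).app M
  let e' : Y⟦(n + k)⟧ ≅ (Y⟦n⟧)⟦k⟧ := (shiftFunctorAdd' C n k (n + k) rfl).app Y
  have h1 : e'.hom ≫ g⟦k⟧' ≫ e.hom = 0 := hR.neg hY hM (n + k) h _
  apply (shiftFunctor C k).map_injective
  rw [← cancel_mono e.hom, ← cancel_epi e'.hom, h1, Functor.map_zero, zero_comp, comp_zero]

lemma LU.of_shift (hR : FthU R U) (hM : U M) (hY : U Y) {n : ℤ} (hn : 0 ≤ n) :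
    LU U M (Y⟦n⟧) := by
  intro W hW k hk g
  have h1 : (rShift W Y n).inv ≫ g = 0 := zero_of_neg hR hM (hR.tensor hW hY) (by omega) _
  rw [← cancel_epi (rShift W Y n).inv, h1, comp_zero]

lemma LU.of (hR : FthU R U) (hM : U M) (hY : U Y) : LU U M Y :=
  (LU.of_shift hR hM hY le_rfl).iso ((shiftFunctorZero C ℤ).app Y)

lemma LU.tensor_pw (hR : FthU R U) (hF : U F) {v : F ⟶ 𝟙_ C} {q : 𝟙_ C ⟶ P}
    {w : P ⟶ F⟦(1 : ℤ)⟧} (hT : Triangle.mk v q w ∈ distTriang C) (hY : LU U M Y) (k : ℕ) :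
    LU U M (Y ⊗ pw (𝟙_ C) P k) := by
  induction k with
  | zero => exact hY.iso (ρ_ Y).symm
  | succ k ih =>
    exact (LU.third (tensor_dist (Y ⊗ pw (𝟙_ C) P k) hT) (ih.tensor' hR hF)
      (ih.iso (ρ_ _).symm)).iso (α_ _ _ _)

/-- Descent along the tower. -/
lemma descent (hR : FthU R U) (hF : U F) {v : F ⟶ 𝟙_ C} {q : 𝟙_ C ⟶ P}
    {w : P ⟶ F⟦(1 : ℤ)⟧} (hT : Triangle.mk v q w ∈ distTriang C) (p : M ⟶ I) (s : F ⊗ I ⟶ M)
    (hsp : s ≫ p = VV v I) (hY : LU U M Y) (δ : Y ⟶ I) (hδ : (F ◁ δ) ≫ s = 0) (k : ℕ) :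
    ∃ δ' : Y ⊗ pw (𝟙_ C) P k ⟶ I, (F ◁ δ') ≫ s = 0 ∧
      (ρ_ Y).inv ≫ (Y ◁ qp q k) ≫ δ' = δ := by
  induction k with
  | zero =>
    refine ⟨(ρ_ Y).hom ≫ δ, ?_, ?_⟩
    · rw [MonoidalCategory.whiskerLeft_comp, Category.assoc, hδ, comp_zero]
    · simp [qp]
  | succ k ih =>
    obtain ⟨δ', h1, h2⟩ := ih
    let Y' : C := Y ⊗ pw (𝟙_ C) P k
    have hY' : LU U M Y' := hY.tensor_pw hR hF hT k
    have h3 : (Y' ◁ v) ≫ ((ρ_ Y').hom ≫ δ') = 0 := by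
      rw [← Category.assoc, VV_braid, Category.assoc, ← VV_nat, ← hsp,
        ← Category.assoc (F ◁ δ'), h1, zero_comp, comp_zero]
    obtain ⟨l, hl⟩ := ye2 (tensor_dist Y' hT) _ h3
    refine ⟨(α_ Y (pw (𝟙_ C) P k) P).inv ≫ l, ?_, ?_⟩
    · have h4 : (F ◁ (Y' ◁ q)) ≫ ((F ◁ l) ≫ s) = 0 := by
        rw [← Category.assoc, ← MonoidalCategory.whiskerLeft_comp, ← hl,
          MonoidalCategory.whiskerLeft_comp, Category.assoc, h1, comp_zero]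
      obtain ⟨l', hl'⟩ := ye3 (tensor_dist F (tensor_dist Y' hT)) _ h4
      have h5 : l' = 0 := (Zm.shift ((hY'.tensor' hR hF) F hF)).zero l'
      rw [MonoidalCategory.whiskerLeft_comp, Category.assoc, hl', h5, comp_zero, comp_zero]
    · have h4 : (ρ_ Y).inv ≫ (Y ◁ qp q (k + 1)) ≫ (α_ Y (pw (𝟙_ C) P k) P).inv ≫ l =
          (ρ_ Y).inv ≫ (Y ◁ qp q k) ≫ (ρ_ Y').inv ≫ (Y' ◁ q) ≫ l := by
        simp only [qp, MonoidalCategory.whiskerLeft_comp, Category.assoc, Y']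
        congr 2
        simp
      rw [h4, ← hl]
      simp only [Iso.inv_hom_id_assoc]
      exact h2

lemma descent0 (hR : FthU R U) (hF : U F) {v : F ⟶ 𝟙_ C} {q : 𝟙_ C ⟶ P}
    {w : P ⟶ F⟦(1 : ℤ)⟧} (hT : Triangle.mk v q w ∈ distTriang C) (p : M ⟶ I) (s : F ⊗ I ⟶ M)
    (hsp : s ≫ p = VV v I) (hY : LU U M Y) (δ : Y ⟶ I) (hδ : (F ◁ δ) ≫ s = 0) (k : ℕ)
    (hk : qp q k = 0) : δ = 0 := by
  obtain ⟨δ', _, h2⟩ := descent hR hF hT p s hsp hY δ hδ k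
  have h3 : Y ◁ (0 : 𝟙_ C ⟶ pw (𝟙_ C) P k) = 0 := (tensorLeft Y).map_zero _ _
  rw [← h2, hk, h3, zero_comp, comp_zero]

/-- The third vertex of a triangle on `v ≠ 0`. -/
lemma deg_third (hFd : R.Deg F 0) {v : F ⟶ 𝟙_ C} (hv : Epi (R.H.map v)) {q : 𝟙_ C ⟶ P}
    {w : P ⟶ F⟦(1 : ℤ)⟧} (hT : Triangle.mk v q w ∈ distTriang C) : R.Deg P (-1) := by
  intro i hi
  by_cases h0 : i = 0
  · subst h0
    have h1 := hepi2 R.H hT 0 (hFd (0 + 1) (by omega))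
    have h2 : Epi (R.H.map (v⟦(0 : ℤ)⟧')) := epi_shift_zero hv
    have h3 : R.H.map (v⟦(0 : ℤ)⟧') ≫ R.H.map (q⟦(0 : ℤ)⟧') = 0 := by
      rw [← Functor.map_comp, ← Functor.map_comp, comp12 hT, Functor.map_zero, Functor.map_zero]
    have h4 : R.H.map (q⟦(0 : ℤ)⟧') = 0 := by
      rw [← cancel_epi (R.H.map (v⟦(0 : ℤ)⟧')), h3, comp_zero]
    rw [IsZero.iff_id_eq_zero, ← cancel_epi (R.H.map (q⟦(0 : ℤ)⟧')), h4, zero_comp, zero_comp]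
  · exact hz3 R.H hT i (deg_unit i h0) (hFd (i + 1) (by omega))

lemma H_ne (hR : FthU R U) (hF : U F) {v : F ⟶ 𝟙_ C} (hv : v ≠ 0) : R.H.map v ≠ 0 :=
  fun h => hv (hR.zero hF hR.unit v h)

lemma epi_sec {v : F ⟶ 𝟙_ C} (hv : R.H.map v ≠ 0) (Y : C) :
    Epi (R.H.map ((Y ◁ v) ≫ (ρ_ Y).hom)) := by
  obtain ⟨e, he⟩ := exists_sec v hv
  have h1 := sg_sec (R := R) he Y
  rw [← Functor.map_comp] at h1
  exact epi_of_epi_fac h1

lemma epi_p {v : F ⟶ 𝟙_ C} (hv : R.H.map v ≠ 0) {p : M ⟶ I} {s : I ⊗ F ⟶ M}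
    (hsp : s ≫ p = (I ◁ v) ≫ (ρ_ I).hom) : Epi (R.H.map p) := by
  have h1 := epi_sec hv I
  rw [← hsp, Functor.map_comp] at h1
  exact epi_of_epi (R.H.map s) _

lemma deg_cl (hM : R.Deg M 0) {v : F ⟶ 𝟙_ C} (hv : R.H.map v ≠ 0) {p : M ⟶ I} {s : I ⊗ F ⟶ M}
    (hsp : s ≫ p = (I ◁ v) ≫ (ρ_ I).hom) : R.Deg I 0 := by
  obtain ⟨e, he⟩ := exists_sec v hv
  intro i hi
  have h1 : ((I⟦i⟧) ◁ v) ≫ (lShift I (𝟙_ C) i).hom ≫ ((ρ_ I).hom)⟦i⟧' =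
      (lShift I F i).hom ≫ s⟦i⟧' ≫ p⟦i⟧' := by
    rw [← Category.assoc, lShift_natural_right, Category.assoc, ← Functor.map_comp, ← hsp,
      Functor.map_comp]
  have h2 : R.H.map ((I⟦i⟧) ◁ v) ≫ R.H.map ((lShift I (𝟙_ C) i).hom ≫ ((ρ_ I).hom)⟦i⟧') = 0 := by
    rw [← Functor.map_comp, h1, Functor.map_comp, Functor.map_comp,
      (hM i hi).eq_of_tgt (R.H.map (s⟦i⟧')) 0, zero_comp, comp_zero]
  have h3 : R.H.map ((I⟦i⟧) ◁ v) = 0 := by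
    rw [← cancel_mono (R.H.map ((lShift I (𝟙_ C) i).hom ≫ ((ρ_ I).hom)⟦i⟧')), h2, zero_comp]
  have h4 := sg_sec (R := R) he (I⟦i⟧)
  rw [IsZero.iff_id_eq_zero, ← h4, h3, zero_comp, comp_zero]

lemma unit_ne_zero (R : Realisation C E) : 𝟙 (𝟙_ C) ≠ 0 := fun h =>
  not_isZero_unit R ((IsZero.iff_id_eq_zero _).2 h)

lemma le_cl (hR : FthU R U) (X : C) (hX : U X) : Cl U X :=
  ⟨X, 𝟙_ C, 𝟙 _, 𝟙 X, (ρ_ X).hom, hX, hR.unit, unit_ne_zero R, by simp⟩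

lemma cl_tensor (hR : FthU R U) {X Y : C} (hX : Cl U X) (hY : Cl U Y) : Cl U (X ⊗ Y) := by
  obtain ⟨M, F, v, p, s, hM, hF, hv, hsp⟩ := hX
  obtain ⟨M', F', v', p', s', hM', hF', hv', hsp'⟩ := hY
  refine ⟨M ⊗ M', F ⊗ F', (v ⊗ₘ v') ≫ (λ_ _).hom, p ⊗ₘ p', tensorμ X Y F F' ≫ (s ⊗ₘ s'),
    hR.tensor hM hM', hR.tensor hF hF', ?_, ?_⟩
  · intro h0
    have h1 : (v ⊗ₘ v') ≫ (λ_ (𝟙_ C)).hom = (F ◁ v') ≫ (ρ_ F).hom ≫ v := by
      rw [MonoidalCategory.tensorHom_def', Category.assoc, unitors_equal, rightUnitor_naturality]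
    have h2 : Epi (R.H.map ((F ◁ v') ≫ (ρ_ F).hom)) := epi_sec (H_ne hR hF' hv') F
    apply H_ne hR hF hv
    rw [← cancel_epi (R.H.map ((F ◁ v') ≫ (ρ_ F).hom)), ← Functor.map_comp, Category.assoc, ← h1,
      h0, Functor.map_zero, comp_zero]
  · rw [Category.assoc, MonoidalCategory.tensorHom_comp_tensorHom, hsp, hsp',
      ← MonoidalCategory.tensorHom_comp_tensorHom, ← Category.assoc, ← tensorμ_natural_right,
      tensor_right_unitality]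
    simp only [MonoidalCategory.whiskerLeft_comp, Category.assoc,
      MonoidalCategory.whiskerLeft_hom_inv_assoc]

lemma cl_cl (hR : FthU R U) (hR' : FthU R (Cl U)) {X : C} (hX : Cl (Cl U) X) : Cl U X := by
  obtain ⟨M, F, v, p, s, ⟨M₀, F₀, v₀, p₀, s₀, hM₀, hF₀, hv₀, hs₀⟩,
    ⟨M₁, F₁, v₁, p₁, s₁, hM₁, hF₁, hv₁, hs₁⟩, hv, hsp⟩ := hX
  have hF : Cl U F := ⟨M₁, F₁, v₁, p₁, s₁, hM₁, hF₁, hv₁, hs₁⟩
  refine ⟨M₀, M₁ ⊗ F₀, (M₁ ◁ v₀) ≫ (ρ_ M₁).hom ≫ p₁ ≫ v, p₀ ≫ p,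
    (X ◁ (p₁ ▷ F₀)) ≫ (α_ X F F₀).inv ≫ (s ▷ F₀) ≫ s₀, hM₀, hR.tensor hM₁ hF₀, ?_, ?_⟩
  · intro h0
    have h2 : Epi (R.H.map ((M₁ ◁ v₀) ≫ (ρ_ M₁).hom)) := epi_sec (H_ne hR hF₀ hv₀) M₁
    have h3 : Epi (R.H.map p₁) := epi_p (H_ne hR hF₁ hv₁) hs₁
    apply H_ne hR' hF hv
    rw [← cancel_epi (R.H.map p₁), ← cancel_epi (R.H.map ((M₁ ◁ v₀) ≫ (ρ_ M₁).hom)),
      ← Functor.map_comp, ← Functor.map_comp, Category.assoc, h0, Functor.map_zero, comp_zero,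
      comp_zero]
  · have h1 : (M₁ ◁ v₀) ≫ (ρ_ M₁).hom ≫ p₁ ≫ v = (p₁ ▷ F₀) ≫ (F ◁ v₀) ≫ (ρ_ F).hom ≫ v := by
      rw [← whisker_exchange_assoc, rightUnitor_naturality_assoc]
    have h2 : s₀ ≫ p₀ ≫ p = (M ◁ v₀) ≫ (ρ_ M).hom ≫ p := by
      rw [← Category.assoc, hs₀, Category.assoc]
    rw [h1]
    simp only [Category.assoc]
    rw [h2, ← whisker_exchange_assoc, rightUnitor_naturality_assoc, hsp]
    simp only [MonoidalCategory.whiskerLeft_comp, Category.assoc]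
    simp

section

variable [RightRigidCategory C]

lemma dual_ext {Z X : C} {f g : Z ⟶ Xᘁ} (h : f ▷ X ≫ ε_ X Xᘁ = g ▷ X ≫ ε_ X Xᘁ) : f = g := by
  have h1 := tensorRightHomEquiv_whiskerRight_comp_evaluation f
  rw [h, tensorRightHomEquiv_whiskerRight_comp_evaluation] at h1
  exact ((cancel_mono _).1 h1).symm

lemma dual_ex {Z X : C} (g : Z ⊗ X ⟶ 𝟙_ C) : ∃ f : Z ⟶ Xᘁ, f ▷ X ≫ ε_ X Xᘁ = g := by
  refine ⟨tensorRightHomEquiv Z X Xᘁ (𝟙_ C) g ≫ (λ_ _).hom, ?_⟩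
  apply (tensorRightHomEquiv Z X Xᘁ (𝟙_ C)).injective
  rw [tensorRightHomEquiv_whiskerRight_comp_evaluation, Category.assoc, Iso.hom_inv_id,
    Category.comp_id]

lemma cl_dual (hG : Good R U) {X : C} (hX : Cl U X) : Cl U (Xᘁ) := by
  obtain ⟨M, F, v, p, s, hM, hF, hv, hsp⟩ := hX
  obtain ⟨p', hp'⟩ := dual_ex (Z := Mᘁ ⊗ F) (X := X)
    ((α_ _ _ _).hom ≫ (Mᘁ ◁ ((β_ F X).hom ≫ s)) ≫ ε_ M Mᘁ)
  refine ⟨Mᘁ ⊗ F, F, v, p', pᘁ ▷ F, hG.tensor (hG.dual hM) hF, hF, hv, ?_⟩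
  apply dual_ext
  have hb : (β_ F X).hom ≫ (X ◁ v) ≫ (ρ_ X).hom = VV v X := by
    rw [VV_braid, SymmetricCategory.symmetry_assoc]
  rw [comp_whiskerRight, Category.assoc, hp', associator_naturality_left_assoc,
    ← whisker_exchange_assoc, rightAdjointMate_comp_evaluation,
    ← MonoidalCategory.whiskerLeft_comp_assoc, Category.assoc, hsp, hb]
  simp [VV]

end

lemma cl_van (hR : FthU R U)
    (hN : ∀ (P : C) (q : 𝟙_ C ⟶ P), R.Deg P (-1) → ∃ n : ℕ, qp q n = 0) {X : C}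
    (hM : U M) (hF : U F) {v : F ⟶ 𝟙_ C} (hv : v ≠ 0) {p : M ⟶ X} {s : X ⊗ F ⟶ M}
    (hsp : s ≫ p = (X ◁ v) ≫ (ρ_ X).hom) (hY : LU U M Y) (δ : Y ⟶ X)
    (hδ : (F ◁ δ) ≫ (β_ F X).hom ≫ s = 0) : δ = 0 := by
  obtain ⟨P, q, w, hT⟩ := distinguished_cocone_triangle v
  obtain ⟨e, he⟩ := exists_sec v (H_ne hR hF hv)
  have hvepi : Epi (R.H.map v) := epi_of_epi_fac he
  obtain ⟨n, hn⟩ := hN P q (deg_third (hR.deg hF) hvepi hT)
  refine descent0 hR hF hT p ((β_ F X).hom ≫ s) ?_ hY δ hδ n hn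
  rw [Category.assoc, hsp, VV_braid, SymmetricCategory.symmetry_assoc]

lemma cl_zero [RightRigidCategory C] (hR : FthU R U)
    (hN : ∀ (P : C) (q : 𝟙_ C ⟶ P), R.Deg P (-1) → ∃ n : ℕ, qp q n = 0) {X : C}
    (hX : Cl U X) (f : 𝟙_ C ⟶ X) (hf : R.H.map f = 0) : f = 0 := by
  obtain ⟨M, F, v, p, s, hM, hF, hv, hsp⟩ := hX
  refine cl_van hR hN hM hF hv hsp (LU.of hR hM hR.unit) f ?_
  apply hR.zero (hR.tensor hF hR.unit) hM
  rw [← Category.assoc, BraidedCategory.braiding_naturality_right, Category.assoc,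
    Functor.map_comp, Functor.map_comp, map_whisker_zero deg_unit f hf F, zero_comp, comp_zero]

lemma cl_neg (hR : FthU R U)
    (hN : ∀ (P : C) (q : 𝟙_ C ⟶ P), R.Deg P (-1) → ∃ n : ℕ, qp q n = 0) {X : C}
    (hX : Cl U X) {n : ℤ} (f : 𝟙_ C ⟶ X⟦-n⟧) (hn : 0 < n) : f = 0 := by
  obtain ⟨M, F, v, p, s, hM, hF, hv, hsp⟩ := hX
  let e : (X⟦-n⟧)⟦n⟧ ≅ X := (shiftFunctorCompIsoId C (-n) n (by omega)).app X
  have h1 : f⟦n⟧' ≫ e.hom = 0 := by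
    refine cl_van hR hN hM hF hv hsp (LU.of_shift hR hM hR.unit hn.le) _ ?_
    rw [← cancel_epi (rShift F (𝟙_ C) n).inv, comp_zero]
    exact hR.neg (hR.tensor hF hR.unit) hM n hn _
  apply (shiftFunctor C n).map_injective
  rw [← cancel_mono e.hom, h1, Functor.map_zero, zero_comp]

end

/-- **CLG**: the closure of a good class is good, and closing twice gives nothing new. -/
theorem t_CLG : S_NILC.{v, u, w} → S_GFT.{v, u, w} → S_CLG.{v, u, w} := by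
  intro hN hGF C _ _ _ _ _ _ _ _ _ _ _ _ E _ _ R U hC hG
  have hR : FthU R U := hGF C E R U hG
  have hN' : ∀ (P : C) (q : 𝟙_ C ⟶ P), R.Deg P (-1) → ∃ n : ℕ, qp q n = 0 :=
    fun P q hP => hN C E R hC P q hP
  have hG' : Good R (Cl U) :=
    { unit := le_cl hR _ hG.unit
      tensor := fun hX hY => cl_tensor hR hX hY
      dual := fun hX => cl_dual hG hX
      deg := fun hX => by
        obtain ⟨M, F, v, p, s, hM, hF, hv, hsp⟩ := hX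
        exact deg_cl (hR.deg hM) (H_ne hR hF hv) hsp
      zero := fun f hX hf => cl_zero hR hN' hX f hf
      neg := fun n f hX hn => cl_neg hR hN' hX f hn }
  exact ⟨hG', le_cl hR, fun X hX => cl_cl hR (hGF C E R (Cl U) hG') hX⟩

end Run7.h237.TC
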